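import Pool.Agent.H12.BicE

set_option autoImplicit false

namespace Pool.Agent.Results.MP_5c9610_co.Counter

/-- `G` has degree `d i` at vertex `i` -/
def Realizes {n : ℕ} (G : SimpleGraph (Fin n)) (d : Fin n → ℕ) : Prop :=
  ∀ i, (G.neighborSet i).ncard = d i

/-- connected, and still connected after deleting any single vertex -/
def Biconnected {n : ℕ} (G : SimpleGraph (Fin n)) : Prop :=
  G.Connected ∧ ∀ v : Fin n, (G.induce ({v}ᶜ : Set (Fin n))).Connected

/-- number of forcibly biconnected graphical degree sequences of length `n` and sum `N` -/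
noncomputable def F2 (n N : ℕ) : ℕ :=
  {d : Fin n → ℕ | Antitone d ∧ (∃ G, Realizes G d) ∧ (∀ G, Realizes G d → Biconnected G) ∧
    ∑ i, d i = N}.ncard

/-- `a 0, ..., a m` is unimodal -/
def Unimodal (a : ℕ → ℕ) (m : ℕ) : Prop :=
  ∃ k, k ≤ m ∧ (∀ i, i < k → a i ≤ a (i + 1)) ∧ (∀ i, k ≤ i → i < m → a (i + 1) ≤ a i)

theorem F2_eq (N : ℕ) : F2 52 N = (Pool.Agent.H12.Bic.X N).ncard := by
  unfold F2 Pool.Agent.H12.Bic.X Pool.Agent.H12.Bic.Gr Realizes
  simp only [Pool.Agent.H12.Bic.ncard_nb]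
  rfl

theorem result :
    (F2 52 206 < F2 52 204 ∧ F2 52 206 < F2 52 208) ∧
    ¬ ∀ n : ℕ, 3 ≤ n →
      Unimodal (fun j => F2 n (2 * n - 2 + 2 * j)) ((n * (n - 1) - (2 * n - 2)) / 2) := by
  have h1 := Pool.Agent.H12.Bic.low204
  have h2 := Pool.Agent.H12.Bic.up206
  have h3 := Pool.Agent.H12.Bic.low208
  rw [← F2_eq] at h1 h2 h3
  refine ⟨by omega, fun h => ?_⟩
  obtain ⟨k, -, h4, h5⟩ := h 52 (by norm_num)
  by_cases hk : k ≤ 52
  · have h6 : F2 52 208 ≤ F2 52 206 := h5 52 hk (by norm_num)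
    omega
  · have h6 : F2 52 204 ≤ F2 52 206 := h4 51 (by omega)
    omega

end Pool.Agent.Results.MP_5c9610_co.Counter
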